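import Mathlib
import Pool.Agent.Helper45K9.LS.Main

/-!
# The linear bound for a subspace in the complement or the sumset fails

For `X ⊆ 𝔽₂ⁿ` let `ω(X)` be the largest dimension of a linear subspace `W` with `W ∖ {0} ⊆ X`, and
`α(X) = ω(𝔽₂ⁿ ∖ X)`. We show:

1. There is no constant `C > 0` such that `max (α(X), ω(X + X)) ≥ C n` for all `n ≥ 1` and all
   `X ⊆ 𝔽₂ⁿ` (negative answer to Q1).
2. For every `n ≥ 2` there is an `X ⊆ 𝔽₂ⁿ` with `max (α(X), ω(X + X)) ≤ 289 (n log n)^(3/4)`.

Construction. `X = {x : 2 |L_j x| + c ≤ b for all j ≤ J}`, where the `L_j : 𝔽₂ⁿ → 𝔽₂ᵇ` are linear maps,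
`|·|` is the Hamming weight, `m ≈ (n log n)^(1/4)`, `b = 4m³ + m`, `c = m²` and `J ≈ 2n/c`.

* `ω(X + X) ≤ 2b` for suitable (in fact, for most) families `L`: on `X + X` all `|L_j x|` are at most
  `b - c`, and a binary linear code with all weights at most `w` has dimension at most `w`. So on a
  subspace `W` contained in `X + X` the map `L_j` has rank at most `b - c`; counting shows that this
  happens for all `j` and some `W` of dimension `2b + 1` for less than all families `L`.
* `α(X)` is small for *every* family `L`. Let `U` be a subspace. For every block `j` take the function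
  `f_j = ∑ φ(A) χ_A` on `U`, where `χ_A` is the character of the sum of the coordinates of `L_j` in
  `A`, and `φ` is a function on two neighbouring layers of the cube which is a subeigenfunction of the
  adjacency operator with eigenvalue `2m²`. With `s_j(x) = b - 2 |L_j x|` and `f = ∏ f_j` the function
  `s_j f - 2m² f` is a nonnegative combination of characters. Hence in the measure on `U` with
  density `f² ∏ (b + s_j)^k` the set `{s_j < c}` has probability at most
  `((b + c)/(b + 2m²))^k ≤ 1/(2J)` for each `j`, and if `2^{dim U}` is larger than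
  `2 (C(b+1, m) 2^k)^J`, then the point `0` has probability less than `1/2`. So some nonzero `x ∈ U`
  has `s_j(x) ≥ c` for all `j`, that is, `x ∈ X`.
-/

set_option autoImplicit false

namespace Pool.Agent.Results.MP_6a62c9_co.LinearBoundFails

open scoped Pointwise

/-- `ω(X)`: the largest dimension of a projective subspace `W ∖ {0}` (`W` a linear subspace of
`𝔽₂ⁿ`) contained in `X`. -/
noncomputable def omega {n : ℕ} (X : Set (Fin n → ZMod 2)) : ℕ :=
  sSup {d : ℕ | ∃ W : Submodule (ZMod 2) (Fin n → ZMod 2),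
    Module.finrank (ZMod 2) W = d ∧ (W : Set (Fin n → ZMod 2)) \ {0} ⊆ X}

/-- `α(X) = ω(𝔽₂ⁿ ∖ X)`. -/
noncomputable def alpha {n : ℕ} (X : Set (Fin n → ZMod 2)) : ℕ := omega Xᶜ

/-- **Negative answer to Q1**, and an upper bound `O((n log n)^(3/4))`. -/
theorem result :
    (¬ ∃ C : ℝ, 0 < C ∧ ∀ n : ℕ, 1 ≤ n → ∀ X : Set (Fin n → ZMod 2),
      C * n ≤ ((max (alpha X) (omega (X + X)) : ℕ) : ℝ)) ∧
    (∀ n : ℕ, 2 ≤ n → ∃ X : Set (Fin n → ZMod 2),
      ((max (alpha X) (omega (X + X)) : ℕ) : ℝ) ≤ 289 * ((n : ℝ) * Real.log n) ^ (3 / 4 : ℝ)) :=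
  ⟨Pool.Agent.Helper45K9.LS.disproof, Pool.Agent.Helper45K9.LS.main_real⟩

end Pool.Agent.Results.MP_6a62c9_co.LinearBoundFails
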